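import Mathlib

/-!
# Non-abelian pro-p Cappitt groups are periodic
-/

set_option autoImplicit false

open scoped Topology

namespace Pool.Agent.Results.MP_b1a016_al.Periodic

universe u

/-- `G` is a pro-`p` group: compact, Hausdorff, totally disconnected, and every quotient by an open
normal subgroup is a finite `p`-group (finiteness is automatic). -/
structure IsProP (p : ℕ) (G : Type u) [Group G] [TopologicalSpace G] : Prop where
  top : IsTopologicalGroup G
  comp : CompactSpace G
  t2 : T2Space G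
  td : TotallyDisconnectedSpace G
  pgroup : ∀ (N : Subgroup G) (_ : N.Normal), IsOpen (N : Set G) → IsPGroup p (G ⧸ N)

/-- `S̃(G)`: the closure of the subgroup generated by all closed subgroups that are not normal. -/
def Stilde (G : Type u) [Group G] [TopologicalSpace G] : Set G :=
  closure ((Subgroup.closure {x : G | ∃ L : Subgroup G, IsClosed (L : Set G) ∧ ¬ L.Normal ∧ x ∈ L} :
    Subgroup G) : Set G)

section

variable {p : ℕ} {G : Type u} [Group G] [TopologicalSpace G] [IsTopologicalGroup G]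

/-- membership in the closure of a subgroup can be tested modulo open normal subgroups -/
theorem mem_closure_of [CompactSpace G] [TotallyDisconnectedSpace G] (H : Subgroup G) (y : G)
    (h : ∀ (M : Subgroup G), M.Normal → IsOpen (M : Set G) → ∃ x ∈ H, y⁻¹ * x ∈ M) :
    y ∈ closure (H : Set G) := by
  rw [mem_closure_iff]
  intro o ho hyo
  have ho' : IsOpen ((fun x => y * x) ⁻¹' o) := ho.preimage (continuous_const.mul continuous_id)
  obtain ⟨M, hM⟩ := ProfiniteGrp.exist_openNormalSubgroup_sub_open_nhds_of_one ho'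
    (by simpa using hyo)
  obtain ⟨x, hx, hxM⟩ := h M.toSubgroup M.isNormal' M.isOpen'
  refine ⟨x, ?_, hx⟩
  have := hM hxM
  simpa using this

theorem exists_of_mem_closure (H : Subgroup G) (y : G) (hy : y ∈ closure (H : Set G))
    (M : Subgroup G) (hMo : IsOpen (M : Set G)) : ∃ x ∈ H, y⁻¹ * x ∈ M := by
  rw [mem_closure_iff] at hy
  obtain ⟨x, hx, hxH⟩ := hy ((fun x => y⁻¹ * x) ⁻¹' (M : Set G))
    (hMo.preimage (continuous_const.mul continuous_id)) (by simp [M.one_mem])
  exact ⟨x, hxH, hx⟩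

theorem zpow_gcd_mem (N : Subgroup G) (x : G) (a b : ℤ) (ha : x ^ a ∈ N) (hb : x ^ b ∈ N) :
    x ^ (Int.gcd a b : ℤ) ∈ N := by
  rw [Int.gcd_eq_gcd_ab, zpow_add, zpow_mul, zpow_mul]
  exact N.mul_mem (N.zpow_mem ha _) (N.zpow_mem hb _)

/-- A nontrivial element `z` of the closure of `⟨x⟩` in a pro-`p` group: some power `x ^ m`,
`m ≥ 1`, lies in the closure of `⟨z⟩`. -/
theorem pow_mem_closure (hp : p.Prime) (hG : IsProP p G) (x z : G)
    (hz : z ∈ closure (Subgroup.zpowers x : Set G)) (hz1 : z ≠ 1) :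
    ∃ m : ℕ, 1 ≤ m ∧ x ^ m ∈ closure (Subgroup.zpowers z : Set G) := by
  have := hG.comp
  have := hG.td
  have := hG.t2
  obtain ⟨N, hN⟩ := ProfiniteGrp.exist_openNormalSubgroup_sub_open_nhds_of_one
    (isOpen_compl_singleton (x := z)) (by simpa using hz1.symm)
  have hzN : z ∉ N.toSubgroup := fun h => hN h rfl
  have hNn : N.toSubgroup.Normal := N.isNormal'
  -- powers in `N`
  have hpow : ∀ (M : Subgroup G), M.Normal → IsOpen (M : Set G) → ∀ y : G, ∃ k : ℕ, y ^ (p ^ k) ∈ M := by
    intro M hM hMo y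
    obtain ⟨k, hk⟩ := hG.pgroup M hM hMo (QuotientGroup.mk y)
    refine ⟨k, ?_⟩
    rwa [← QuotientGroup.mk_pow, QuotientGroup.eq_one_iff] at hk
  obtain ⟨_, ⟨a, rfl⟩, ha⟩ := exists_of_mem_closure _ z hz N.toSubgroup N.isOpen'
  have ha' : x ^ a ∉ N.toSubgroup := by
    intro h
    apply hzN
    have h1 := N.toSubgroup.mul_mem h (N.toSubgroup.inv_mem ha)
    simpa using h1
  have ha0 : a ≠ 0 := by
    rintro rfl
    exact ha' (by simp [N.toSubgroup.one_mem])
  obtain ⟨k, hk⟩ := hpow N.toSubgroup hNn N.isOpen' x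
  -- write `a = p ^ j * a'`
  obtain ⟨j, a', hpa', rfl⟩ : ∃ (j : ℕ) (a' : ℤ), ¬ (p : ℤ) ∣ a' ∧ a = (p : ℤ) ^ j * a' := by
    obtain ⟨a', h1, h2⟩ := (FiniteMultiplicity.exists_eq_pow_mul_and_not_dvd
      (Int.finiteMultiplicity_iff.2 ⟨by simpa using hp.ne_one, ha0⟩ : FiniteMultiplicity (p : ℤ) a))
    exact ⟨_, a', h2, h1⟩
  refine ⟨p ^ j, Nat.one_le_iff_ne_zero.2 (pow_ne_zero _ hp.ne_zero), ?_⟩
  apply mem_closure_of
  intro M hM hMo
  have hMN : IsOpen ((M ⊓ N.toSubgroup : Subgroup G) : Set G) := hMo.inter N.isOpen'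
  obtain ⟨_, ⟨b, rfl⟩, hb⟩ := exists_of_mem_closure _ z hz (M ⊓ N.toSubgroup) hMN
  have hbM : z⁻¹ * x ^ b ∈ M := hb.1
  have hbN : z⁻¹ * x ^ b ∈ N.toSubgroup := hb.2
  have hba : x ^ (b - (p : ℤ) ^ j * a') ∈ N.toSubgroup := by
    have h1 := N.toSubgroup.mul_mem (N.toSubgroup.inv_mem ha) hbN
    have h2 : (z⁻¹ * x ^ ((p : ℤ) ^ j * a'))⁻¹ * (z⁻¹ * x ^ b) = x ^ (b - (p : ℤ) ^ j * a') := by
      rw [mul_inv_rev, inv_inv, mul_assoc, mul_inv_cancel_left, ← zpow_neg, ← zpow_add]
      congr 1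
      ring
    rwa [h2] at h1
  have hdvd : (p : ℤ) ^ (j + 1) ∣ b - (p : ℤ) ^ j * a' := by
    have h1 : x ^ ((p : ℤ) ^ k) ∈ N.toSubgroup := by
      have := hk
      rwa [← zpow_natCast, Nat.cast_pow] at this
    have h2 := zpow_gcd_mem N.toSubgroup x _ _ hba h1
    have h3 : Int.gcd (b - (p : ℤ) ^ j * a') ((p : ℤ) ^ k) ∣ p ^ k := by
      have := Int.gcd_dvd_right (b - (p : ℤ) ^ j * a') ((p : ℤ) ^ k)
      exact_mod_cast this
    obtain ⟨i, -, hi⟩ := (Nat.dvd_prime_pow hp).1 h3
    rw [hi] at h2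
    have hij : j + 1 ≤ i := by
      by_contra hlt
      apply ha'
      have h5 : (p : ℤ) ^ i ∣ (p : ℤ) ^ j * a' := (pow_dvd_pow _ (by omega)).mul_right _
      obtain ⟨t, ht⟩ := h5
      rw [ht, zpow_mul]
      apply N.toSubgroup.zpow_mem
      rw [Nat.cast_pow] at h2
      exact h2
    have h6 : (p : ℤ) ^ i ∣ b - (p : ℤ) ^ j * a' := by
      have := Int.gcd_dvd_left (b - (p : ℤ) ^ j * a') ((p : ℤ) ^ k)
      rw [hi] at this
      exact_mod_cast this
    exact (pow_dvd_pow _ hij).trans h6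
  obtain ⟨t, ht⟩ := hdvd
  have hb' : b = (p : ℤ) ^ j * (a' + p * t) := by
    have : b = (p : ℤ) ^ j * a' + (p : ℤ) ^ (j + 1) * t := by rw [← ht]; ring
    rw [this]; ring
  obtain ⟨l, hl⟩ := hpow M hM hMo x
  have hcop : IsCoprime (a' + p * t) ((p : ℤ) ^ l) := by
    apply IsCoprime.pow_right
    have h1 : IsCoprime a' (p : ℤ) := by
      rw [isCoprime_comm]
      exact (Nat.prime_iff_prime_int.1 hp).coprime_iff_not_dvd.2 hpa'
    exact h1.add_mul_left_left t
  obtain ⟨c, d, hcd⟩ := hcop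
  refine ⟨z ^ c, ⟨c, rfl⟩, ?_⟩
  -- compute modulo `M`
  rw [← QuotientGroup.eq_one_iff] at hbM hl ⊢
  have hzx : (z : G ⧸ M) = (x : G ⧸ M) ^ b := by
    rw [QuotientGroup.mk_mul, QuotientGroup.mk_inv, QuotientGroup.mk_zpow] at hbM
    exact inv_mul_eq_one.1 hbM
  rw [QuotientGroup.mk_mul, QuotientGroup.mk_inv, QuotientGroup.mk_zpow, hzx, QuotientGroup.mk_pow,
    ← zpow_mul, inv_mul_eq_one, hb']
  rw [QuotientGroup.mk_pow] at hl
  have h7 : (x : G ⧸ M) ^ ((p : ℤ) ^ l) = 1 := by
    rw [← hl, ← zpow_natCast, Nat.cast_pow]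
  have h8 : (p : ℤ) ^ j * (a' + p * t) * c = ((p ^ j : ℕ) : ℤ) + (p : ℤ) ^ l * (-(d * (p : ℤ) ^ j)) := by
    push_cast
    linear_combination (p : ℤ) ^ j * hcd
  rw [h8, zpow_add, zpow_mul _ ((p : ℤ) ^ l), h7, one_zpow, mul_one, zpow_natCast]

theorem mem_Stilde_of (L : Subgroup G) (hL : IsClosed (L : Set G)) (hn : ¬ L.Normal) (x : G)
    (hx : x ∈ L) : x ∈ Stilde G :=
  subset_closure (Subgroup.subset_closure ⟨L, hL, hn, hx⟩)

theorem mul_mem_Stilde {x y : G} (hx : x ∈ Stilde G) (hy : y ∈ Stilde G) : x * y ∈ Stilde G :=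
  (Subgroup.closure {x : G | ∃ L : Subgroup G, IsClosed (L : Set G) ∧ ¬ L.Normal ∧
    x ∈ L}).topologicalClosure.mul_mem hx hy

theorem inv_mem_Stilde {x : G} (hx : x ∈ Stilde G) : x⁻¹ ∈ Stilde G :=
  (Subgroup.closure {x : G | ∃ L : Subgroup G, IsClosed (L : Set G) ∧ ¬ L.Normal ∧
    x ∈ L}).topologicalClosure.inv_mem hx

/-- the procyclic subgroup generated by an element outside `S̃(G)` is normal -/
theorem normal_of_notMem {x : G} (hx : x ∉ Stilde G) :
    (Subgroup.zpowers x).topologicalClosure.Normal := by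
  by_contra hn
  exact hx (mem_Stilde_of _ (Subgroup.isClosed_topologicalClosure _) hn x
    (subset_closure (Subgroup.mem_zpowers x)))

/-- elements of the closure of `⟨z⟩` commute with everything that commutes with `z` -/
theorem commute_of_mem_closure [T2Space G] {z g y : G} (hzg : z * g = g * z)
    (hy : y ∈ closure (Subgroup.zpowers z : Set G)) : y * g = g * y := by
  have hcl : IsClosed {y : G | y * g = g * y} :=
    isClosed_eq (continuous_id.mul continuous_const) (continuous_const.mul continuous_id)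
  have hsub : (Subgroup.zpowers z : Set G) ⊆ {y : G | y * g = g * y} := by
    rintro _ ⟨k, rfl⟩
    exact (Commute.zpow_left hzg k).eq
  exact closure_minimal hsub hcl hy

/-- An element of infinite order outside `S̃(G)` commutes with every element outside `S̃(G)`. -/
theorem commute_of_infinite (hp : p.Prime) (hG : IsProP p G) {x g : G} (hx : x ∉ Stilde G)
    (hg : g ∉ Stilde G) (hxo : ¬ IsOfFinOrder x) : x * g = g * x := by
  have := hG.t2
  have hX := normal_of_notMem hx
  have hY := normal_of_notMem hg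
  set z := x * g * x⁻¹ * g⁻¹ with hz
  have hzX : z ∈ (Subgroup.zpowers x).topologicalClosure := by
    have h1 : x ∈ (Subgroup.zpowers x).topologicalClosure :=
      subset_closure (Subgroup.mem_zpowers x)
    have h2 := hX.conj_mem x⁻¹ (inv_mem h1) g
    have h3 : z = x * (g * x⁻¹ * g⁻¹) := by rw [hz]; group
    rw [h3]
    exact mul_mem h1 h2
  have hzY : z ∈ (Subgroup.zpowers g).topologicalClosure := by
    have h1 : g ∈ (Subgroup.zpowers g).topologicalClosure :=
      subset_closure (Subgroup.mem_zpowers g)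
    have h2 := hY.conj_mem g h1 x
    rw [hz]
    exact mul_mem h2 (inv_mem h1)
  have hzx : z * x = x * z := commute_of_mem_closure rfl hzX
  have hzg : z * g = g * z := commute_of_mem_closure rfl hzY
  by_cases hz1 : z = 1
  · rw [hz, mul_inv_eq_one, mul_inv_eq_iff_eq_mul] at hz1
    exact hz1
  · exfalso
    obtain ⟨m, hm, hxm⟩ := pow_mem_closure hp hG x z hzX hz1
    have hxmg : x ^ m * g = g * x ^ m := commute_of_mem_closure hzg hxm
    -- `g x g⁻¹ = z⁻¹ x`
    have hconj : g * x * g⁻¹ = z⁻¹ * x := by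
      rw [hz]; group
    have hconjm : g * x ^ m * g⁻¹ = (z⁻¹) ^ m * x ^ m := by
      rw [← conj_pow, hconj]
      exact (Commute.inv_left hzx : Commute z⁻¹ x).mul_pow m
    have hzm : z ^ m = 1 := by
      rw [← hxmg, mul_inv_cancel_right, eq_comm, mul_eq_right, inv_pow, inv_eq_one] at hconjm
      exact hconjm
    have hzo : IsOfFinOrder z := isOfFinOrder_iff_pow_eq_one.2 ⟨m, hm, hzm⟩
    have hfin : (Subgroup.zpowers z : Set G).Finite := finite_zpowers.2 hzo
    rw [hfin.isClosed.closure_eq] at hxm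
    obtain ⟨k, hk⟩ := hxm
    have hk' : z ^ k = x ^ m := hk
    apply hxo
    have h1 : IsOfFinOrder (x ^ m) := by rw [← hk']; exact hzo.zpow
    exact h1.of_pow (by omega)

/-- Every non-abelian pro-`p` group `G` with `S̃(G) ≠ G` is periodic. -/
theorem periodic (hp : p.Prime) (hG : IsProP p G) (hS : Stilde G ≠ Set.univ)
    (hna : ¬ ∀ a b : G, a * b = b * a) (w : G) : IsOfFinOrder w := by
  have := hG.comp
  have := hG.td
  have := hG.t2
  obtain ⟨y, hy⟩ : ∃ y, y ∉ Stilde G := by
    by_contra hcon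
    push Not at hcon
    exact hS (Set.eq_univ_of_forall hcon)
  -- something commuting with all elements outside `S̃` is central
  have hcen : ∀ x : G, (∀ g, g ∉ Stilde G → x * g = g * x) → ∀ g, x * g = g * x := by
    intro x hx g
    by_cases hg : g ∈ Stilde G
    · have hgy : g * y ∉ Stilde G := by
        intro h
        apply hy
        have := mul_mem_Stilde (inv_mem_Stilde hg) h
        simpa using this
      have h1 := hx _ hgy
      have h2 := hx _ hy
      have h3 : x * g * y = g * x * y := by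
        calc x * g * y = g * y * x := by rw [mul_assoc, h1]
          _ = g * x * y := by rw [mul_assoc, ← h2, mul_assoc]
      exact mul_right_cancel h3
    · exact hx g hg
  have hinf : ∀ x : G, x ∉ Stilde G → ¬ IsOfFinOrder x → ∀ g, x * g = g * x := fun x hx hxo =>
    hcen x fun g hg => commute_of_infinite hp hG hx hg hxo
  -- a noncentral element outside `S̃`
  obtain ⟨h, hh, hhn⟩ : ∃ h, h ∉ Stilde G ∧ ¬ ∀ g, h * g = g * h := by
    by_contra hcon
    push Not at hcon
    apply hna
    intro a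
    exact hcen a fun g hg => (hcon g hg a).symm
  have hho : IsOfFinOrder h := by
    by_contra hho
    exact hhn (hinf h hh hho)
  obtain ⟨n, hn, hhn1⟩ := isOfFinOrder_iff_pow_eq_one.1 hho
  -- central elements have finite order
  have hZ : ∀ v : G, (∀ g, v * g = g * v) → IsOfFinOrder v := by
    intro v hv
    by_contra hvo
    have hopen : IsOpen ((fun u => h * u) ⁻¹' (Stilde G)ᶜ) :=
      isClosed_closure.isOpen_compl.preimage (continuous_const.mul continuous_id)
    obtain ⟨M, hM⟩ := ProfiniteGrp.exist_openNormalSubgroup_sub_open_nhds_of_one hopen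
      (by simpa using hh)
    obtain ⟨k, hk⟩ := hG.pgroup M.toSubgroup M.isNormal' M.isOpen' (QuotientGroup.mk v)
    have hk' : v ^ p ^ k ∈ M.toSubgroup := by
      rwa [← QuotientGroup.mk_pow, QuotientGroup.eq_one_iff] at hk
    have hu : h * v ^ p ^ k ∉ Stilde G := hM hk'
    have hvk : ∀ g, v ^ p ^ k * g = g * v ^ p ^ k := fun g =>
      (Commute.pow_left (hv g : Commute v g) _).eq
    have huo : ¬ IsOfFinOrder (h * v ^ p ^ k) := by
      intro huo
      obtain ⟨N, hN, hN1⟩ := isOfFinOrder_iff_pow_eq_one.1 huo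
      apply hvo
      rw [isOfFinOrder_iff_pow_eq_one]
      refine ⟨p ^ k * (N * n), by positivity [hp.pos], ?_⟩
      have h1 : (h * v ^ p ^ k) ^ (N * n) = 1 := by rw [pow_mul, hN1, one_pow]
      rw [(show Commute h (v ^ p ^ k) from (hvk h).symm).mul_pow, mul_comm N n, pow_mul, hhn1,
        one_pow, one_mul] at h1
      rw [pow_mul, mul_comm N n]
      exact h1
    apply hhn
    intro g
    have h1 := hinf _ hu huo g
    have h2 := hvk g
    have h3 : h * g * v ^ p ^ k = g * h * v ^ p ^ k := by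
      rw [mul_assoc, ← h2, ← mul_assoc, h1, ← mul_assoc]
    exact mul_right_cancel h3
  -- elements outside `S̃` have finite order
  have hout : ∀ x : G, x ∉ Stilde G → IsOfFinOrder x := by
    intro x hx
    by_contra hxo
    exact hxo (hZ x (hinf x hx hxo))
  by_cases hw : w ∈ Stilde G
  · -- some power of `w` commutes with `h`
    have hfin : (Subgroup.zpowers h : Set G).Finite := finite_zpowers.2 hho
    have hnorm := normal_of_notMem hh
    have hcl : ∀ i : ℕ, w ^ i * h * (w ^ i)⁻¹ ∈ (Subgroup.zpowers h : Set G) := by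
      intro i
      have h1 : h ∈ (Subgroup.zpowers h).topologicalClosure :=
        subset_closure (Subgroup.mem_zpowers h)
      have h2 : w ^ i * h * (w ^ i)⁻¹ ∈ closure (Subgroup.zpowers h : Set G) :=
        hnorm.conj_mem h h1 (w ^ i)
      rwa [hfin.isClosed.closure_eq] at h2
    have hfin' : Finite (Subgroup.zpowers h : Set G) := hfin
    obtain ⟨i, j, hij, he⟩ : ∃ i j : ℕ, i < j ∧
        w ^ i * h * (w ^ i)⁻¹ = w ^ j * h * (w ^ j)⁻¹ := by
      have hni : ¬ Function.Injective
          (fun i : ℕ => (⟨w ^ i * h * (w ^ i)⁻¹, hcl i⟩ : (Subgroup.zpowers h : Set G))) :=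
        not_injective_infinite_finite _
      rw [Function.Injective] at hni
      push Not at hni
      obtain ⟨i, j, he, hne⟩ := hni
      have he' := congrArg Subtype.val he
      rcases lt_or_gt_of_ne hne with hlt | hlt
      · exact ⟨i, j, hlt, he'⟩
      · exact ⟨j, i, hlt, he'.symm⟩
    obtain ⟨m, hm, rfl⟩ : ∃ m, 1 ≤ m ∧ j = i + m := ⟨j - i, by omega, by omega⟩
    have hcomm : w ^ m * h = h * w ^ m := by
      rw [pow_add] at he
      have h1 : h = w ^ m * h * (w ^ m)⁻¹ := by
        have h2 : w ^ i * h * (w ^ i)⁻¹ = w ^ i * (w ^ m * h * (w ^ m)⁻¹) * (w ^ i)⁻¹ := by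
          rw [he]; group
        exact mul_left_cancel (mul_right_cancel h2)
      nth_rewrite 2 [h1]
      group
    have hwm : w ^ m ∈ Stilde G := by
      exact (Subgroup.closure {x : G | ∃ L : Subgroup G, IsClosed (L : Set G) ∧ ¬ L.Normal ∧
        x ∈ L}).topologicalClosure.pow_mem hw m
    have hhu : h * w ^ m ∉ Stilde G := by
      intro h1
      apply hh
      have := mul_mem_Stilde h1 (inv_mem_Stilde hwm)
      simpa using this
    obtain ⟨N, hN, hN1⟩ := isOfFinOrder_iff_pow_eq_one.1 (hout _ hhu)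
    rw [isOfFinOrder_iff_pow_eq_one]
    refine ⟨m * (n * N), by positivity, ?_⟩
    have h1 : (h * w ^ m) ^ (n * N) = 1 := by rw [mul_comm n N, pow_mul, hN1, one_pow]
    rw [(show Commute h (w ^ m) from hcomm.symm).mul_pow, pow_mul h, hhn1,
      one_pow, one_mul] at h1
    rw [pow_mul]
    exact h1
  · exact hout w hw

end

/-- For every prime `p`, every non-abelian pro-`p` Cappitt group is periodic. -/
theorem result (p : ℕ) (hp : p.Prime) (G : Type u) [Group G] [TopologicalSpace G]
    (hG : IsProP p G) (hS : Stilde G ≠ Set.univ) (hna : ¬ ∀ a b : G, a * b = b * a) (w : G) :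
    IsOfFinOrder w := by
  have := hG.top
  exact periodic hp hG hS hna w

end Pool.Agent.Results.MP_b1a016_al.Periodic
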